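import Pool.Agent.W785.FD.Stms

/-! Families of curves of modulus zero (subtask FD-WU). -/

set_option autoImplicit false

open MeasureTheory Metric Set Filter
open scoped ENNReal NNReal Topology

namespace Pool.Agent.W727.FD.WU

open Pool.Agent.W785.FD

theorem jensen (p : ℝ) (hp : 1 ≤ p) : ∀ (N : ℕ) (x : ℕ → ℝ≥0∞),
    (∑ n ∈ Finset.range N, (2⁻¹ : ℝ≥0∞) ^ (n + 1) * x n) ^ p
      ≤ ∑ n ∈ Finset.range N, (2⁻¹ : ℝ≥0∞) ^ (n + 1) * x n ^ p := by
  intro N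
  induction N with
  | zero =>
    intro x
    simp only [Finset.range_zero, Finset.sum_empty]
    rw [ENNReal.zero_rpow_of_pos (by linarith)]
  | succ N ih =>
    intro x
    have e : ∀ y : ℕ → ℝ≥0∞, ∑ n ∈ Finset.range (N + 1), (2⁻¹ : ℝ≥0∞) ^ (n + 1) * y n
        = 2⁻¹ * y 0 + 2⁻¹ * ∑ n ∈ Finset.range N, (2⁻¹ : ℝ≥0∞) ^ (n + 1) * y (n + 1) := by
      intro y
      rw [Finset.sum_range_succ', add_comm, Finset.mul_sum]
      congr 1
      · simp
      · refine Finset.sum_congr rfl fun n _ => ?_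
        rw [← mul_assoc, ← pow_succ' (2⁻¹ : ℝ≥0∞) (n + 1)]
    rw [e x, e fun n => x n ^ p]
    refine (ENNReal.rpow_arith_mean_le_arith_mean2_rpow 2⁻¹ 2⁻¹ _ _
      ENNReal.inv_two_add_inv_two hp).trans ?_
    gcongr
    exact ih fun n => x (n + 1)

theorem main {X : Type*} [MetricSpace X] [ProperSpace X] [MeasurableSpace X] [BorelSpace X]
    (μ : Measure X) (p : ℝ) (hp : 1 < p) : S_WU μ p := by
  have hp0 : 0 < p := by linarith
  intro u g
  have hm : ∀ (c : Crv X) (h : X → ℝ≥0∞), Measurable h → Measurable fun t => h (c.γ t) :=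
    fun c h hh => hh.comp c.lip.continuous.measurable
  constructor
  · rintro ⟨hg, hM⟩
    refine ⟨hg, ?_⟩
    have key : ∀ n : ℕ, ∃ ρ : X → ℝ≥0∞, Measurable ρ ∧
        (∀ c : Crv X, ¬ CrvIneq u g c → 1 ≤ c.int ρ) ∧
        ∫⁻ x, ρ x ^ p ∂μ ≤ (((2⁻¹ : ℝ≥0∞) ^ (n + 1)) ^ p) := by
      intro n
      have h1 : Pool.Agent.W785.FD.Mod μ p {c | ¬ CrvIneq u g c} < ((2⁻¹ : ℝ≥0∞) ^ (n + 1)) ^ p := by
        rw [hM]
        exact ENNReal.rpow_pos (ENNReal.pow_pos (by simp) _) (by simp)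
      unfold Pool.Agent.W785.FD.Mod at h1
      obtain ⟨ρ, h2⟩ := iInf_lt_iff.1 h1
      obtain ⟨h3, h4⟩ := iInf_lt_iff.1 h2
      obtain ⟨h5, h6⟩ := iInf_lt_iff.1 h4
      exact ⟨ρ, h3, fun c hc => h5 c hc, h6.le⟩
    choose ρ hρ hadm hint using key
    refine ⟨fun x => ∑' n, ρ n x, Measurable.tsum hρ, ?_, ?_⟩
    · have h1 : ∀ x, (∑' n, ρ n x) ^ p
          ≤ ∑' n, (2⁻¹ : ℝ≥0∞) ^ (n + 1) * ((2 : ℝ≥0∞) ^ (n + 1) * ρ n x) ^ p := by
        intro x
        set B := ∑' n, (2⁻¹ : ℝ≥0∞) ^ (n + 1) * ((2 : ℝ≥0∞) ^ (n + 1) * ρ n x) ^ p with hB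
        rw [← ENNReal.le_rpow_inv_iff hp0, ENNReal.tsum_eq_iSup_nat]
        refine iSup_le fun N => ?_
        rw [ENNReal.le_rpow_inv_iff hp0]
        have h2 := jensen p hp.le N fun n => (2 : ℝ≥0∞) ^ (n + 1) * ρ n x
        have h3 : ∑ n ∈ Finset.range N, (2⁻¹ : ℝ≥0∞) ^ (n + 1) * ((2 : ℝ≥0∞) ^ (n + 1) * ρ n x)
            = ∑ n ∈ Finset.range N, ρ n x := by
          refine Finset.sum_congr rfl fun n _ => ?_
          rw [← mul_assoc, ← mul_pow, ENNReal.inv_mul_cancel (by simp) (by simp), one_pow,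
            one_mul]
        rw [h3] at h2
        exact h2.trans (ENNReal.sum_le_tsum _)
      have h4 : ∫⁻ x, (∑' n, ρ n x) ^ p ∂μ ≤ 1 := by
        calc ∫⁻ x, (∑' n, ρ n x) ^ p ∂μ
            ≤ ∫⁻ x, ∑' n, (2⁻¹ : ℝ≥0∞) ^ (n + 1) * ((2 : ℝ≥0∞) ^ (n + 1) * ρ n x) ^ p ∂μ :=
              lintegral_mono h1
          _ = ∑' n, ∫⁻ x, (2⁻¹ : ℝ≥0∞) ^ (n + 1) * ((2 : ℝ≥0∞) ^ (n + 1) * ρ n x) ^ p ∂μ :=
              lintegral_tsum fun n =>
                ((((hρ n).const_mul _).pow_const _).const_mul _).aemeasurable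
          _ ≤ ∑' n : ℕ, (2⁻¹ : ℝ≥0∞) ^ (n + 1) := by
              refine ENNReal.tsum_le_tsum fun n => ?_
              rw [lintegral_const_mul _ (((hρ n).const_mul _).pow_const _)]
              have h5 : ∫⁻ x, ((2 : ℝ≥0∞) ^ (n + 1) * ρ n x) ^ p ∂μ ≤ 1 := by
                simp_rw [ENNReal.mul_rpow_of_nonneg _ _ hp0.le]
                rw [lintegral_const_mul _ ((hρ n).pow_const _)]
                calc ((2 : ℝ≥0∞) ^ (n + 1)) ^ p * ∫⁻ x, ρ n x ^ p ∂μ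
                    ≤ ((2 : ℝ≥0∞) ^ (n + 1)) ^ p * ((2⁻¹ : ℝ≥0∞) ^ (n + 1)) ^ p := by
                      gcongr
                      exact hint n
                  _ = 1 := by
                      rw [← ENNReal.mul_rpow_of_nonneg _ _ hp0.le, ← mul_pow,
                        ENNReal.mul_inv_cancel (by simp) (by simp), one_pow, ENNReal.one_rpow]
              calc (2⁻¹ : ℝ≥0∞) ^ (n + 1) * ∫⁻ x, ((2 : ℝ≥0∞) ^ (n + 1) * ρ n x) ^ p ∂μ
                  ≤ (2⁻¹ : ℝ≥0∞) ^ (n + 1) * 1 := by gcongr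
                _ = _ := mul_one _
          _ = 1 := by
              have : ∀ n : ℕ, (2⁻¹ : ℝ≥0∞) ^ (n + 1) = 2⁻¹ * (2⁻¹ : ℝ≥0∞) ^ n := fun n =>
                pow_succ' _ _
              simp_rw [this]
              rw [ENNReal.tsum_mul_left, ENNReal.tsum_geometric, ENNReal.one_sub_inv_two,
                inv_inv, ENNReal.inv_mul_cancel (by simp) (by simp)]
      exact h4.trans_lt ENNReal.one_lt_top
    · intro c
      by_cases hc : CrvIneq u g c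
      · exact Or.inl hc
      · right
        have h1 : c.int (fun x => ∑' n, ρ n x) = ∑' n, c.int (ρ n) := by
          unfold Crv.int
          exact lintegral_tsum fun n => (hm c _ (hρ n)).aemeasurable
        rw [h1, eq_top_iff]
        calc (⊤ : ℝ≥0∞) = ∑' _ : ℕ, (1 : ℝ≥0∞) := (ENNReal.tsum_const_eq_top_of_ne_zero
              one_ne_zero).symm
          _ ≤ _ := ENNReal.tsum_le_tsum fun n => hadm n c hc
  · rintro ⟨hg, h, hh, hfin, hc⟩
    refine ⟨hg, ?_⟩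
    by_contra hne
    obtain ⟨r, hr0, hr⟩ := ENNReal.exists_nnreal_pos_mul_lt hfin.ne hne
    have h1 : Pool.Agent.W785.FD.Mod μ p {c | ¬ CrvIneq u g c} ≤ ∫⁻ x, ((r : ℝ≥0∞) ^ (p⁻¹) * h x) ^ p ∂μ := by
      unfold Pool.Agent.W785.FD.Mod
      refine iInf_le_of_le (fun x => (r : ℝ≥0∞) ^ (p⁻¹) * h x) ?_
      refine iInf_le_of_le (hh.const_mul _) ?_
      refine iInf_le_of_le ?_ le_rfl
      intro c hc'
      have h2 : c.int h = ∞ := (hc c).resolve_left hc'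
      have h3 : c.int (fun x => (r : ℝ≥0∞) ^ (p⁻¹) * h x) = (r : ℝ≥0∞) ^ (p⁻¹) * c.int h := by
        unfold Crv.int
        exact lintegral_const_mul _ (hm c h hh)
      rw [h3, h2, ENNReal.mul_top]
      · exact le_top
      · exact (ENNReal.rpow_pos (by exact_mod_cast hr0) ENNReal.coe_ne_top).ne'
    have h2 : ∫⁻ x, ((r : ℝ≥0∞) ^ (p⁻¹) * h x) ^ p ∂μ = r * ∫⁻ x, h x ^ p ∂μ := by
      simp_rw [ENNReal.mul_rpow_of_nonneg _ _ hp0.le]
      rw [lintegral_const_mul _ (hh.pow_const _), ← ENNReal.rpow_mul,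
        inv_mul_cancel₀ hp0.ne', ENNReal.rpow_one]
    rw [h2] at h1
    exact absurd hr (not_lt.2 h1)

end Pool.Agent.W727.FD.WU
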